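import Pool.Agent.U199.ZT.Q

/-!
# Points of `w² = quartic` with given real position, close to `(0, w)` at finitely many `p`-adic places
-/

set_option autoImplicit false
set_option linter.unusedSectionVars false
set_option linter.unusedVariables false

open WeierstrassCurve Filter Topology Pool.Agent.Y720.MZ Pool.Agent.Y718.X

namespace Pool.Agent.U199.ZT

open Pool.Agent.Q35.ZC (MulPt dq tq yq qp gp S_INJ)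
open Pool.Agent.U199.ZS (Cl real_pt fin_bad xs_right)

variable {K : Type} [Field K] [DecidableEq K]

/-- **Density, away from one parameter.** -/
theorem mix_main (σ : K →+* ℝ) {ι : Type} [Finite ι] {p : ι → ℕ} [∀ i, Fact (p i).Prime]
    (τ : ∀ i, K →+* ℚ_[p i]) {w q₁ q₂ q₃ q₄ : K} (hw0 : w ≠ 0)
    (hD : dsc q₂ (rb w q₁ q₃ q₄) (rc w q₁ q₂ q₃ q₄) ≠ 0)
    (hS : ∀ h, ∀ n : ℕ, n ≠ 0 → n • (.some (xs w q₁ q₂) (ys w q₁ q₂ q₃) h :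
      Pt q₂ (rb w q₁ q₃ q₄) (rc w q₁ q₂ q₃ q₄)) ≠ 0) (hpos : 0 < σ w) {t : ℝ} (ht : t ≠ 0)
    (hseg : ∀ s : ℝ, 0 ≤ s → s ≤ 1 → 0 < Qr (σ w) (σ q₁) (σ q₂) (σ q₃) (σ q₄) (s * t))
    (hN : 4 * σ w ^ 2 * (Xr (σ w) (σ q₁) (σ q₂) (σ q₃) (σ q₄) t + σ q₂) - σ q₁ ^ 2 ≠ 0)
    {ε : ℝ} (hε : 0 < ε) : ∃ r Y : K, |σ r - t| < ε ∧ 0 < σ Y ∧
      Y ^ 2 = w ^ 2 + q₁ * r + q₂ * r ^ 2 + q₃ * r ^ 3 + q₄ * r ^ 4 ∧ Cl τ ε r Y w ∧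
      ((r = 0 ∧ Y = w) ∨ MulPt (w, ![q₁, q₂, q₃, q₄]) r Y) := by
  have hch : CharZero K := σ.charZero
  have e1 : σ (rb w q₁ q₃ q₄) = rb (σ w) (σ q₁) (σ q₃) (σ q₄) := by simp [rb, map_ofNat]
  have e2 : σ (rc w q₁ q₂ q₃ q₄) = rc (σ w) (σ q₁) (σ q₂) (σ q₃) (σ q₄) := by simp [rc, map_ofNat]
  have hDr : dsc (σ q₂) (rb (σ w) (σ q₁) (σ q₃) (σ q₄)) (rc (σ w) (σ q₁) (σ q₂) (σ q₃) (σ q₄)) ≠ 0 := by
    rw [← e1, ← e2, ← map_dsc]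
    exact (map_ne_zero σ).2 hD
  have hQ : 0 < Qr (σ w) (σ q₁) (σ q₂) (σ q₃) (σ q₄) t := by
    have := hseg 1 zero_le_one le_rfl
    rwa [one_mul] at this
  obtain ⟨h1, h2, h3⟩ := real_pt hpos ht hQ.le hN
  have hs := Real.sqrt_pos.2 hQ
  obtain ⟨x, y, hxy, -, hd, a1, a2, a3, a4⟩ := mix σ τ hw0 hD hS
    (ξ := Xr (σ w) (σ q₁) (σ q₂) (σ q₃) (σ q₄) t) (η := Yr (σ w) (σ q₁) (σ q₂) (σ q₃) (σ q₄) t)
    (fun x hx => by rw [e1, e2]; exact Xr_right hpos ht hseg hDr x hx)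
    (by rw [e1, e2]; exact inv_curve hpos.ne' ht hQ.le) h1 (B := ∅) Set.finite_empty (by simp)
    (lt_min hε hs)
  rw [h2] at a1
  rw [h3] at a2
  refine ⟨_, _, a1.trans_le (min_le_left _ _), ?_, Yf_eqn hw0 hxy hd, fun i =>
    ⟨(a3 i).1.trans_le (min_le_left _ _), (a3 i).2.trans_le (min_le_left _ _)⟩, Or.inr a4⟩
  have := (abs_lt.1 (a2.trans_le (min_le_right _ _))).1
  linarith

/-- **Density.** -/
theorem mix_pos (σ : K →+* ℝ) {ι : Type} [Finite ι] {p : ι → ℕ} [∀ i, Fact (p i).Prime]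
    (τ : ∀ i, K →+* ℚ_[p i]) {w q₁ q₂ q₃ q₄ : K} (hw0 : w ≠ 0)
    (hD : dsc q₂ (rb w q₁ q₃ q₄) (rc w q₁ q₂ q₃ q₄) ≠ 0)
    (hS : ∀ h, ∀ n : ℕ, n ≠ 0 → n • (.some (xs w q₁ q₂) (ys w q₁ q₂ q₃) h :
      Pt q₂ (rb w q₁ q₃ q₄) (rc w q₁ q₂ q₃ q₄)) ≠ 0) (hpos : 0 < σ w) {t : ℝ}
    (hseg : ∀ s : ℝ, 0 ≤ s → s ≤ 1 → 0 < Qr (σ w) (σ q₁) (σ q₂) (σ q₃) (σ q₄) (s * t))
    {ε : ℝ} (hε : 0 < ε) : ∃ r Y : K, |σ r - t| < ε ∧ 0 < σ Y ∧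
      Y ^ 2 = w ^ 2 + q₁ * r + q₂ * r ^ 2 + q₃ * r ^ 3 + q₄ * r ^ 4 ∧ Cl τ ε r Y w ∧
      ((r = 0 ∧ Y = w) ∨ MulPt (w, ![q₁, q₂, q₃, q₄]) r Y) := by
  have hch : CharZero K := σ.charZero
  by_cases ht : t = 0
  · subst ht
    refine ⟨0, w, by simpa using hε, hpos, by ring, fun i => ?_, Or.inl ⟨rfl, rfl⟩⟩
    simpa using hε
  have hns := ns_of_dsc hD (s_eqn (q₁ := q₁) (q₂ := q₂) (q₃ := q₃) (q₄ := q₄) hw0)
  have hys : ys w q₁ q₂ q₃ ≠ 0 := by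
    intro h0
    apply hS hns 2 two_ne_zero
    rw [two_smul]
    exact dbl_zero hns (by rw [h0, mul_zero])
  -- at most one exceptional parameter
  have hexc : ∀ t : ℝ, t ≠ 0 → 0 ≤ Qr (σ w) (σ q₁) (σ q₂) (σ q₃) (σ q₄) t →
      4 * σ w ^ 2 * (Xr (σ w) (σ q₁) (σ q₂) (σ q₃) (σ q₄) t + σ q₂) - σ q₁ ^ 2 = 0 →
      (σ (xs w q₁ q₂) ^ 2 - 4 * σ w ^ 2 * σ q₄) * t = 4 * σ w * σ (ys w q₁ q₂ q₃) := by
    intro t ht hQ h0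
    have hs := Real.sq_sqrt hQ
    have hX : Xr (σ w) (σ q₁) (σ q₂) (σ q₃) (σ q₄) t = σ (xs w q₁ q₂) := by
      have e : σ (xs w q₁ q₂) = σ q₁ ^ 2 / (4 * σ w ^ 2) - σ q₂ := by simp [xs, map_ofNat]
      rw [e]
      have := hpos.ne'
      field_simp
      linear_combination h0
    have hy : 2 * σ w * σ (ys w q₁ q₂ q₃) = σ q₁ * σ (xs w q₁ q₂) + 2 * σ w ^ 2 * σ q₃ := by
      have := hpos.ne'
      have e : σ (ys w q₁ q₂ q₃) = (σ q₁ * σ (xs w q₁ q₂) + 2 * σ w ^ 2 * σ q₃) / (2 * σ w) := by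
        simp [ys, map_ofNat]
      rw [e]
      field_simp
    have hx4 : 4 * σ w ^ 2 * (σ (xs w q₁ q₂) + σ q₂) = σ q₁ ^ 2 := by
      have e : σ (xs w q₁ q₂) = σ q₁ ^ 2 / (4 * σ w ^ 2) - σ q₂ := by simp [xs, map_ofNat]
      rw [e]
      have := hpos.ne'
      field_simp
      ring
    rw [Xr, div_eq_iff (pow_ne_zero 2 ht)] at hX
    generalize Real.sqrt (Qr (σ w) (σ q₁) (σ q₂) (σ q₃) (σ q₄) t) = s at hs hX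
    unfold Qr at hs
    have h3 : t ^ 3 ≠ 0 := pow_ne_zero 3 ht
    apply mul_left_cancel₀ h3
    generalize σ (xs w q₁ q₂) = A at hX hy hx4
    generalize σ (ys w q₁ q₂ q₃) = B at hy
    have hX' : 2 * σ w * s = A * t ^ 2 - σ q₁ * t - 2 * σ w ^ 2 := by linear_combination hX
    linear_combination (-(2 * σ w * s) - (A * t ^ 2 - σ q₁ * t - 2 * σ w ^ 2)) * hX' +
      4 * σ w ^ 2 * hs + t ^ 2 * hx4 - 2 * t ^ 3 * hy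
  -- choose a good parameter
  obtain ⟨s, hs0, hs1, hst, hsN⟩ : ∃ s : ℝ, 0 < s ∧ s ≤ 1 ∧ |s * t - t| < ε / 2 ∧
      4 * σ w ^ 2 * (Xr (σ w) (σ q₁) (σ q₂) (σ q₃) (σ q₄) (s * t) + σ q₂) - σ q₁ ^ 2 ≠ 0 := by
    set δ : ℝ := min (1 / 2) (ε / (4 * (|t| + 1))) with hδ
    have htp : 0 < |t| := abs_pos.2 ht
    have hδ0 : 0 < δ := lt_min (by norm_num) (by positivity)
    have hδ1 : δ ≤ 1 / 2 := min_le_left _ _
    have hδ2 : δ * |t| < ε / 2 := by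
      have h5 : δ ≤ ε / (4 * (|t| + 1)) := min_le_right _ _
      calc δ * |t| ≤ ε / (4 * (|t| + 1)) * |t| := by gcongr
        _ = ε / 4 * (|t| / (|t| + 1)) := by field_simp
        _ ≤ ε / 4 * 1 := by
            gcongr
            rw [div_le_one (by positivity)]
            linarith
        _ < ε / 2 := by linarith
    by_contra hcon
    push Not at hcon
    have hstep : ∀ μ : ℝ, 0 ≤ μ → μ ≤ δ → (σ (xs w q₁ q₂) ^ 2 - 4 * σ w ^ 2 * σ q₄) *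
        ((1 - μ) * t) = 4 * σ w * σ (ys w q₁ q₂ q₃) := by
      intro μ hμ0 hμ
      have h1 : |(1 - μ) * t - t| < ε / 2 := by
        have : (1 - μ) * t - t = -(μ * t) := by ring
        rw [this, abs_neg, abs_mul, abs_of_nonneg hμ0]
        exact (mul_le_mul_of_nonneg_right hμ htp.le).trans_lt hδ2
      have h2 := hcon (1 - μ) (by linarith) (by linarith) h1
      exact hexc _ (mul_ne_zero (by linarith) ht) (hseg _ (by linarith) (by linarith)).le h2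
    have h5 := hstep 0 le_rfl hδ0.le
    have h6 := hstep δ hδ0.le le_rfl
    have h7 : (σ (xs w q₁ q₂) ^ 2 - 4 * σ w ^ 2 * σ q₄) * (δ * t) = 0 := by
      linear_combination h5 - h6
    rcases mul_eq_zero.1 h7 with h8 | h8
    · rw [h8, zero_mul] at h5
      have : 4 * σ w * σ (ys w q₁ q₂ q₃) ≠ 0 :=
        mul_ne_zero (mul_ne_zero (by norm_num) hpos.ne') ((map_ne_zero σ).2 hys)
      exact this h5.symm
    · exact (mul_ne_zero hδ0.ne' ht) h8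
  obtain ⟨r, Y, hrt, hY, hYQ, hcl, hM⟩ := mix_main σ τ hw0 hD hS hpos
    (mul_ne_zero hs0.ne' ht) (fun s' h0 h1 => by
      rw [← mul_assoc]
      exact hseg (s' * s) (by positivity) (mul_le_one₀ h1 hs0.le hs1)) hsN (half_pos hε)
  refine ⟨r, Y, ?_, hY, hYQ, fun i => ⟨(hcl i).1.trans (half_lt_self hε),
    (hcl i).2.trans (half_lt_self hε)⟩, hM⟩
  have := abs_sub_le (σ r) (s * t) t
  linarith

/-- **Changing the sign.** -/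
theorem mix_flip (σ : K →+* ℝ) {ι : Type} [Finite ι] {p : ι → ℕ} [∀ i, Fact (p i).Prime]
    (τ : ∀ i, K →+* ℚ_[p i]) {w q₁ q₂ q₃ q₄ : K} (hw0 : w ≠ 0)
    (hD : dsc q₂ (rb w q₁ q₃ q₄) (rc w q₁ q₂ q₃ q₄) ≠ 0)
    (hS : ∀ h, ∀ n : ℕ, n ≠ 0 → n • (.some (xs w q₁ q₂) (ys w q₁ q₂ q₃) h :
      Pt q₂ (rb w q₁ q₃ q₄) (rc w q₁ q₂ q₃ q₄)) ≠ 0) {t : ℝ}
    (hroot : Qr (σ w) (σ q₁) (σ q₂) (σ q₃) (σ q₄) t = 0) {F : Set K} (hF : F.Finite)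
    {ε : ℝ} (hε : 0 < ε) : ∃ r Y : K, |σ r| < ε ∧ |σ Y + σ w| < ε ∧ r ∉ F ∧
      Y ^ 2 = w ^ 2 + q₁ * r + q₂ * r ^ 2 + q₃ * r ^ 3 + q₄ * r ^ 4 ∧ Cl τ ε r Y w ∧
      MulPt (w, ![q₁, q₂, q₃, q₄]) r Y := by
  have hch : CharZero K := σ.charZero
  have hns := ns_of_dsc hD (s_eqn (q₁ := q₁) (q₂ := q₂) (q₃ := q₃) (q₄ := q₄) hw0)
  have hys : ys w q₁ q₂ q₃ ≠ 0 := by
    intro h0
    apply hS hns 2 two_ne_zero
    rw [two_smul]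
    exact dbl_zero hns (by rw [h0, mul_zero])
  have e1 : σ (rb w q₁ q₃ q₄) = rb (σ w) (σ q₁) (σ q₃) (σ q₄) := by simp [rb, map_ofNat]
  have e2 : σ (rc w q₁ q₂ q₃ q₄) = rc (σ w) (σ q₁) (σ q₂) (σ q₃) (σ q₄) := by simp [rc, map_ofNat]
  have e3 : σ (xs w q₁ q₂) = xs (σ w) (σ q₁) (σ q₂) := by simp [xs, map_ofNat]
  have e4 : σ (ys w q₁ q₂ q₃) = ys (σ w) (σ q₁) (σ q₂) (σ q₃) := by simp [ys, xs, map_ofNat]
  have hDr : dsc (σ q₂) (rb (σ w) (σ q₁) (σ q₃) (σ q₄)) (rc (σ w) (σ q₁) (σ q₂) (σ q₃) (σ q₄)) ≠ 0 := by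
    rw [← e1, ← e2, ← map_dsc]
    exact (map_ne_zero σ).2 hD
  have hw' : σ w ≠ 0 := (map_ne_zero σ).2 hw0
  set X : ℝ := xs (σ w) (σ q₁) (σ q₂) with hX
  set Y : ℝ := ys (σ w) (σ q₁) (σ q₂) (σ q₃) with hY
  have hY0 : Y ≠ 0 := by rw [← e4]; exact (map_ne_zero σ).2 hys
  have hYX : Y ^ 2 = gg (σ q₂) (rb (σ w) (σ q₁) (σ q₃) (σ q₄)) (rc (σ w) (σ q₁) (σ q₂) (σ q₃) (σ q₄)) X :=
    s_eqn (q₁ := σ q₁) (q₂ := σ q₂) (q₃ := σ q₃) (q₄ := σ q₄) hw'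
  obtain ⟨-, -, h3⟩ := Pool.Agent.Q26.ZC.inj ℝ (σ w, ![σ q₁, σ q₂, σ q₃, σ q₄]) hw'
  obtain ⟨h4, h5, h6, -⟩ := h3 hY0
  have h4 : Df (σ w) (σ q₁) (σ q₃) X (-Y) ≠ 0 := h4
  have h5 : tf (σ w) (σ q₁) (σ q₂) (σ q₃) X (-Y) = 0 := h5
  have h6 : Yf (σ w) (σ q₁) (σ q₂) (σ q₃) X (-Y) = -σ w := h6
  -- the target
  obtain ⟨s, hs⟩ : ∃ s : ℝ, s * |Y| = Y ∧ s ^ 2 = 1 := by
    rcases le_total 0 Y with h | h
    · exact ⟨1, by rw [abs_of_nonneg h, one_mul], by norm_num⟩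
    · exact ⟨-1, by rw [abs_of_nonpos h]; ring, by norm_num⟩
  set η : ℝ → ℝ := fun ξ => -(s * Real.sqrt (gg (σ q₂) (rb (σ w) (σ q₁) (σ q₃) (σ q₄))
    (rc (σ w) (σ q₁) (σ q₂) (σ q₃) (σ q₄)) ξ)) with hη
  have lη : Tendsto η (𝓝[>] X) (𝓝 (-Y)) := by
    have h1 : Continuous η := by
      rw [hη]
      exact (continuous_const.mul (Real.continuous_sqrt.comp (gg_cont _ _ _))).neg
    have h2 : η X = -Y := by
      rw [hη]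
      simp only
      rw [← hYX, Real.sqrt_sq_eq_abs, hs.1]
    rw [← h2]
    exact (h1.tendsto X).mono_left nhdsWithin_le_nhds
  have lξ : Tendsto (fun ξ : ℝ => ξ) (𝓝[>] X) (𝓝 X) := tendsto_id.mono_left nhdsWithin_le_nhds
  have lden : Tendsto (fun ξ => Df (σ w) (σ q₁) (σ q₃) ξ (η ξ)) (𝓝[>] X)
      (𝓝 (Df (σ w) (σ q₁) (σ q₃) X (-Y))) :=
    ((lη.const_mul _).sub (lξ.const_mul _)).sub_const _
  have lnum : Tendsto (fun ξ => Nf (σ w) (σ q₁) (σ q₂) ξ) (𝓝[>] X)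
      (𝓝 (Nf (σ w) (σ q₁) (σ q₂) X)) :=
    ((lξ.add_const _).const_mul _).sub_const _
  have lt' : Tendsto (fun ξ => tf (σ w) (σ q₁) (σ q₂) (σ q₃) ξ (η ξ)) (𝓝[>] X)
      (𝓝 (tf (σ w) (σ q₁) (σ q₂) (σ q₃) X (-Y))) := lnum.div lden h4
  have lY : Tendsto (fun ξ => Yf (σ w) (σ q₁) (σ q₂) (σ q₃) ξ (η ξ)) (𝓝[>] X)
      (𝓝 (Yf (σ w) (σ q₁) (σ q₂) (σ q₃) X (-Y))) :=
    ((lt'.mul ((lt'.mul lξ).sub_const (σ q₁))).div_const (2 * σ w)).const_add (-σ w)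
  -- the bad points
  set B : Set K := {x : K | ∃ y : K, y ^ 2 = x ^ 3 + q₂ * x ^ 2 + rb w q₁ q₃ q₄ * x +
    rc w q₁ q₂ q₃ q₄ ∧ x ≠ xs w q₁ q₂ ∧ Df w q₁ q₃ x y ≠ 0 ∧ tf w q₁ q₂ q₃ x y ∈ F} ∪
      {xs w q₁ q₂} with hB
  have hBf : B.Finite := (fin_bad hw0 hF).union (Set.finite_singleton _)
  have hBc : IsClosed ((σ '' B) \ {X}) := ((hBf.image σ).subset Set.sdiff_subset).isClosed
  have b0 : ∀ᶠ ξ in 𝓝[>] X, X < ξ := self_mem_nhdsWithin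
  have b1 : ∀ᶠ ξ in 𝓝[>] X, ξ ∉ (σ '' B) \ {X} :=
    nhdsWithin_le_nhds (hBc.isOpen_compl.mem_nhds fun h => h.2 rfl)
  have b2 := lden.eventually_ne h4
  have b3 := (Metric.tendsto_nhds.1 lt') (ε / 2) (half_pos hε)
  have b4 := (Metric.tendsto_nhds.1 lY) (ε / 2) (half_pos hε)
  obtain ⟨ξ, c0, c1, c2, c3, c4⟩ := (b0.and (b1.and (b2.and (b3.and b4)))).exists
  rw [h5, Real.dist_eq, sub_zero] at c3
  rw [h6, Real.dist_eq, sub_neg_eq_add] at c4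
  have hright : ∀ x, X < x → 0 < gg (σ q₂) (rb (σ w) (σ q₁) (σ q₃) (σ q₄))
      (rc (σ w) (σ q₁) (σ q₂) (σ q₃) (σ q₄)) x := fun x hx => xs_right hw' hroot hDr x hx
  obtain ⟨x, y, hxy, hxB, hd, a1, a2, a3, a4⟩ := mix σ τ hw0 hD hS (ξ := ξ) (η := η ξ)
    (fun x hx => by rw [e1, e2]; exact hright x (c0.trans hx))
    (by
      rw [e1, e2, hη]
      simp only
      rw [neg_sq, mul_pow, hs.2, one_mul, Real.sq_sqrt (hright ξ c0).le]) c2 hBf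
    (fun h => c1 ⟨h, c0.ne'⟩) (half_pos hε)
  refine ⟨tf w q₁ q₂ q₃ x y, Yf w q₁ q₂ q₃ x y, ?_, ?_, ?_, Yf_eqn hw0 hxy hd, fun i =>
    ⟨(a3 i).1.trans (half_lt_self hε), (a3 i).2.trans (half_lt_self hε)⟩, a4⟩
  · have := abs_add_le (σ (tf w q₁ q₂ q₃ x y) - tf (σ w) (σ q₁) (σ q₂) (σ q₃) ξ (η ξ))
      (tf (σ w) (σ q₁) (σ q₂) (σ q₃) ξ (η ξ))
    rw [sub_add_cancel] at this
    linarith
  · have := abs_add_le (σ (Yf w q₁ q₂ q₃ x y) - Yf (σ w) (σ q₁) (σ q₂) (σ q₃) ξ (η ξ))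
      (Yf (σ w) (σ q₁) (σ q₂) (σ q₃) ξ (η ξ) + σ w)
    have e : σ (Yf w q₁ q₂ q₃ x y) - Yf (σ w) (σ q₁) (σ q₂) (σ q₃) ξ (η ξ) +
      (Yf (σ w) (σ q₁) (σ q₂) (σ q₃) ξ (η ξ) + σ w) = σ (Yf w q₁ q₂ q₃ x y) + σ w := by ring
    rw [e] at this
    linarith
  · intro hr
    by_cases hx : x = xs w q₁ q₂
    · exact hxB (Or.inr hx)
    · exact hxB (Or.inl ⟨y, hxy, hx, hd, hr⟩)

end Pool.Agent.U199.ZT
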