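import Pool.Agent.U199.ZT.G

/-!
# Products of two quartic polynomials, with classes
-/

set_option autoImplicit false
set_option linter.unusedSectionVars false
set_option linter.unusedVariables false

open MvPolynomial Pool.Agent.Y720.MZ Filter Topology

namespace Pool.Agent.U199.ZT

open Pool.Agent.Q35.ZC
open Pool.Agent.Q35.TT (lc af bq tay pq)
open Pool.Agent.U199.ZR (odds_trans odds_self odds_neg)
open Pool.Agent.U199.ZS (ne_of_sign sign_trans near_out im Nr)
open Pool.Agent.U199.ZS.Kum (Dc E G deg_G io_G fin_E St Sm OutK)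

section num

variable {K : Type} [Field K] [NumberField K] {ι : Type} [Finite ι] {p : ι → ℕ}
  [hp : ∀ i, Fact (p i).Prime]

/-- one move -/
theorem turnK (σ : K →+* ℝ) (τ : ∀ v, K →+* ℚ_[p v]) {v : Fin 2 → Fin 5 → K}
    (hv : ∀ i, Dc (v i)) {F : Fin 2 → Set K} (hF : ∀ i, (F i).Finite) (hEF : ∀ i, E (v i) ⊆ F i)
    {e : K} (he : e ≠ 0) {x : Fin 2 → ℝ} {δ : ℝ}
    (hbox : ∀ b : Fin 2 → ℝ, (∀ k, |b k - x k| < δ) → 0 < eval b (map σ (C e * G v)))
    {z : Fin 2 → K} {w : K} (hw : w ≠ 0) (hon : w ^ 2 = eval z (C e * G v)) (i : Fin 2)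
    (hz : St F z) (hzx : ∀ k, |σ (z k) - x k| < δ) {y : ℝ} (hy : |y - x i| < δ)
    {ε : ℝ} (hε : 0 < ε) {ε' : ℝ} (hε' : 0 < ε') :
    ∃ r Z : K, |σ r - y| < ε ∧ 0 < σ Z * σ w ∧
      Z ^ 2 = eval (Function.update z i r) (C e * G v) ∧ St F (Function.update z i r) ∧
      (∀ k, |σ (Function.update z i r k) - x k| < δ) ∧ Rl τ ε' (C e * G v) z w (Function.update z i r) Z := by
  have hd : ∀ j, (C e * G v).degreeOf j ≤ 4 := fun j => (degreeOf_C_mul_le _ j e).trans (deg_G v j)
  obtain ⟨j, hij⟩ : ∃ j : Fin 2, i ≠ j := by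
    fin_cases i
    · exact ⟨1, by decide⟩
    · exact ⟨0, by decide⟩
  obtain ⟨r, Z, a1, a2, a3, a4, a5, a6⟩ := line_target σ τ hd hw hon
    (io_G he hij (hv i) fun h => hz i (hEF i h))
    (x := x i) (hzx i) (fun t ht => hbox _ fun k => by
      by_cases h : k = i
      · subst h
        rw [Function.update_self]
        exact ht
      · rw [Function.update_of_ne h]
        exact hzx k) hy (hF i) (lt_min hε (show 0 < δ - |y - x i| by linarith)) hε'
  refine ⟨r, Z, a1.trans_le (min_le_left _ _), a3, a4, ?_, ?_, a5, a6⟩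
  · intro k
    by_cases h : k = i
    · subst h
      rw [Function.update_self]
      exact a2
    · rw [Function.update_of_ne h]
      exact hz k
  · intro k
    by_cases h : k = i
    · subst h
      rw [Function.update_self]
      have b1 := a1.trans_le (min_le_right _ _)
      have b2 := abs_add_le (σ r - y) (y - x k)
      have b3 : σ r - y + (y - x k) = σ r - x k := by ring
      rw [b3] at b2
      linarith
    · rw [Function.update_of_ne h]
      exact hzx k

theorem hbK (σ : K →+* ℝ) (τ : ∀ v, K →+* ℚ_[p v]) {v : Fin 2 → Fin 5 → K}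
    (hv : ∀ i, Dc (v i)) {F : Fin 2 → Set K} (hF : ∀ i, (F i).Finite) (hEF : ∀ i, E (v i) ⊆ F i)
    {e : K} (he : e ≠ 0) {η : ℝ} (hη : 0 < η) : HB σ τ (C e * G v) (St F) η := by
  intro x δ hbox z w hw hon hz hzx y hy ε hε
  obtain ⟨r, Z, a1, a3, a4, a5, a6, a7⟩ := turnK σ τ hv hF hEF he hbox hw hon 0 hz hzx (hy 0) hε hη
  obtain ⟨r', Z', c1, c3, c4, c5, c6, c7⟩ := turnK σ τ hv hF hEF he hbox (ne_of_sign a3) a4 1
    a5 a6 (hy 1) hε hη
  refine ⟨_, Z', sign_trans a3 c3, c4, c5, ?_, a7.trans c7⟩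
  intro k
  have : k = 0 ∨ k = 1 := by omega
  rcases this with rfl | rfl
  · rw [Function.update_of_ne (by decide), Function.update_self]
    exact a1
  · rw [Function.update_self]
    exact c1

theorem hfK (σ : K →+* ℝ) (τ : ∀ v, K →+* ℚ_[p v]) {v : Fin 2 → Fin 5 → K}
    (hv : ∀ i, Dc (v i)) {F : Fin 2 → Set K} (hF : ∀ i, (F i).Finite) (hEF : ∀ i, E (v i) ⊆ F i)
    {e : K} (he : e ≠ 0) {η : ℝ} (hη : 0 < η) : HF σ τ (C e * G v) (St F) η := by
  intro x δ hbox k hroot z w hw hon hz hzx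
  have hd : ∀ j, (C e * G v).degreeOf j ≤ 4 := fun j => (degreeOf_C_mul_le _ j e).trans (deg_G v j)
  obtain ⟨j, hkj⟩ : ∃ j : Fin 2, k ≠ j := by
    fin_cases k
    · exact ⟨1, by decide⟩
    · exact ⟨0, by decide⟩
  obtain ⟨t, ht⟩ := hroot _ hzx
  obtain ⟨r, Z, a1, a2, a3, a4, a5, a6⟩ := line_flip σ τ hd hw hon
    (io_G he hkj (hv k) fun h => hz k (hEF k h)) ht (hF k)
    (ε := min η (δ - |σ (z k) - x k|)) (lt_min hη (by have := hzx k; linarith))
  refine ⟨_, Z, a2, a4, ?_, ?_, a5.mono (min_le_left _ _), a6⟩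
  · intro l
    by_cases h : l = k
    · subst h
      rw [Function.update_self]
      exact a3
    · rw [Function.update_of_ne h]
      exact hz l
  · intro l
    by_cases h : l = k
    · subst h
      rw [Function.update_self]
      have b1 := a1.trans_le (min_le_right _ _)
      have b2 := abs_add_le (σ r - σ (z l)) (σ (z l) - x l)
      have b3 : σ r - σ (z l) + (σ (z l) - x l) = σ r - x l := by ring
      rw [b3] at b2
      linarith
    · rw [Function.update_of_ne h]
      exact hzx l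

end num

end Pool.Agent.U199.ZT
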