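import Pool.Agent.U199.ZT.A

/-!
# Moving along the lines, with classes of zero-cycles
-/

set_option autoImplicit false
set_option linter.unusedSectionVars false
set_option linter.unusedVariables false

open MvPolynomial Pool.Agent.Y720.MZ Filter Topology

namespace Pool.Agent.U199.ZT

open Pool.Agent.Q35.ZC
open Pool.Agent.U199.ZR (odds_trans odds_self odds_neg odds_mv mv_update Qr_eval)
open Pool.Agent.U199.ZS (Nr nr_of Nr.mono Nr.trans)

theorem hSt : S_STEP := step2

section real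

variable {K : Type} [Field K] [CharZero K] {n : ℕ} {g : MvPolynomial (Fin n) K}
  {ι : Type} [Finite ι] {p : ι → ℕ} [hp : ∀ i, Fact (p i).Prime]

/-- **Moving along a line, in the real points.** -/
theorem line_move (σ : K →+* ℝ) (τ : ∀ v, K →+* ℚ_[p v]) (hd : ∀ j, g.degreeOf j ≤ 4)
    {z : Fin n → K} {w : K} {i : Fin n} (hw : w ≠ 0) (hon : w ^ 2 = eval z g)
    (hio : ∀ w' : K, w' ≠ 0 → w' ^ 2 = eval z g → IOt (th g (Pi.single i 1) z w')) {t : ℝ}
    (hseg : ∀ s : ℝ, 0 ≤ s → s ≤ 1 →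
      0 < eval (Function.update (fun k => σ (z k)) i (σ (z i) + s * t)) (map σ g))
    {ε : ℝ} (hε : 0 < ε) :
    ∃ r Z : K, |σ r - t| < ε ∧ 0 < σ Z * σ w ∧ Z ^ 2 = eval (mv z i r) g ∧
      Nr τ ε z w (mv z i r) Z ∧ (mv z i r, Z) ∈ Odds g (z, w) := by
  let : DecidableEq K := Classical.decEq K
  have key : ∀ w' : K, w' ≠ 0 → 0 < σ w' → w' ^ 2 = eval z g →
      ∃ r Z : K, |σ r - t| < ε ∧ 0 < σ Z ∧ Z ^ 2 = eval (mv z i r) g ∧
        (∀ v, ‖τ v r‖ < ε ∧ ‖τ v (Z - w')‖ < ε) ∧ (mv z i r, Z) ∈ Odds g (z, w') := by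
    intro w' hw' hp' hon'
    obtain ⟨h1, h2⟩ := hio w' hw' hon'
    obtain ⟨r, Y, h3, h4, h5, h6, h7⟩ := mix_pos σ τ (w := w') (q₁ := cq g z (Pi.single i 1) 0)
      (q₂ := cq g z (Pi.single i 1) 1) (q₃ := cq g z (Pi.single i 1) 2)
      (q₄ := cq g z (Pi.single i 1) 3) hw' h1 h2 hp' (t := t) (fun s h0 h1 => by
        rw [Qr_eval σ hd hon']
        exact hseg s h0 h1) hε
    refine ⟨r, Y, h3, h4, ?_, h6, ?_⟩
    · rw [h5]
      exact cq_eval (deg_rst (hd i) z) hon' r
    · rcases h7 with ⟨rfl, rfl⟩ | h7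
      · have e0 : mv z i (0 : K) = z := by
          funext a
          unfold mv
          ring
        rw [e0]
        exact odds_self hon'
      · have e0 : (![cq g z (Pi.single i 1) 0, cq g z (Pi.single i 1) 1, cq g z (Pi.single i 1) 2,
            cq g z (Pi.single i 1) 3] : Fin 4 → K) = cq g z (Pi.single i 1) := by
          funext k
          fin_cases k <;> rfl
        rw [e0] at h7
        exact odds_mv hSt hd hon' h7
  rcases lt_or_gt_of_ne ((map_ne_zero σ).2 hw) with hneg | hpos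
  · have hon' : (-w) ^ 2 = eval z g := by rw [neg_sq]; exact hon
    obtain ⟨r, Z, h1, h2, h3, h4, h5⟩ := key (-w) (neg_ne_zero.2 hw) (by rw [map_neg]; linarith) hon'
    refine ⟨r, -Z, h1, ?_, by rw [neg_sq]; exact h3, nr_of hε fun v => ⟨(h4 v).1, ?_⟩,
      odds_trans (odds_neg hon) (odds_trans h5 (odds_neg h3))⟩
    · rw [map_neg]
      nlinarith
    · have e1 : -Z - w = -(Z - -w) := by ring
      rw [e1, map_neg, norm_neg]
      exact (h4 v).2
  · obtain ⟨r, Z, h1, h2, h3, h4, h5⟩ := key w hw hpos hon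
    exact ⟨r, Z, h1, mul_pos h2 hpos, h3, nr_of hε h4, h5⟩

/-- **Changing the sheet.** -/
theorem line_flip (σ : K →+* ℝ) (τ : ∀ v, K →+* ℚ_[p v]) (hd : ∀ j, g.degreeOf j ≤ 4)
    {z : Fin n → K} {w : K} {i : Fin n} (hw : w ≠ 0) (hon : w ^ 2 = eval z g)
    (hio : ∀ w' : K, w' ≠ 0 → w' ^ 2 = eval z g → IOt (th g (Pi.single i 1) z w')) {t : ℝ}
    (hroot : eval (Function.update (fun k => σ (z k)) i t) (map σ g) = 0)
    {F : Set K} (hF : F.Finite) {ε : ℝ} (hε : 0 < ε) :
    ∃ r Z : K, |σ r - σ (z i)| < ε ∧ σ Z * σ w < 0 ∧ r ∉ F ∧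
      Z ^ 2 = eval (Function.update z i r) g ∧ Nr τ ε z w (Function.update z i r) Z ∧
      (Function.update z i r, Z) ∈ Odds g (z, w) := by
  let : DecidableEq K := Classical.decEq K
  obtain ⟨h1, h2⟩ := hio w hw hon
  have hw' : 0 < |σ w| := abs_pos.2 ((map_ne_zero σ).2 hw)
  obtain ⟨r, Y, h3, h4, h5, h6, h7, hM⟩ := mix_flip σ τ (w := w) (q₁ := cq g z (Pi.single i 1) 0)
    (q₂ := cq g z (Pi.single i 1) 1) (q₃ := cq g z (Pi.single i 1) 2)
    (q₄ := cq g z (Pi.single i 1) 3) hw h1 h2 (t := t - σ (z i)) (by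
      rw [Qr_eval σ hd hon]
      rw [add_sub_cancel]
      exact hroot) (F := (fun r => r - z i) '' F) (hF.image _) (lt_min hε hw')
  have e1 : Function.update z i (z i + r) = mv z i r := by
    rw [← mv_update]
    congr 1
    ring
  refine ⟨z i + r, Y, ?_, ?_, ?_, ?_, ?_, ?_⟩
  · rw [map_add, add_sub_cancel_left]
    exact h3.trans_le (min_le_left _ _)
  · have h8 := h4.trans_le (min_le_right _ _)
    have h9 : σ Y * σ w = (σ Y + σ w) * σ w - |σ w| * |σ w| := by
      rw [abs_mul_abs_self]; ring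
    rw [h9]
    have h10 : (σ Y + σ w) * σ w ≤ |σ Y + σ w| * |σ w| := by
      rw [← abs_mul]; exact le_abs_self _
    nlinarith
  · intro h
    exact h5 ⟨_, h, by ring⟩
  · rw [e1, h6]
    exact cq_eval (deg_rst (hd i) z) hon r
  · rw [e1]
    exact nr_of hε fun v => ⟨(h7 v).1.trans_le (min_le_left _ _), (h7 v).2.trans_le (min_le_left _ _)⟩
  · rw [e1]
    have e0 : (![cq g z (Pi.single i 1) 0, cq g z (Pi.single i 1) 1, cq g z (Pi.single i 1) 2,
        cq g z (Pi.single i 1) 3] : Fin 4 → K) = cq g z (Pi.single i 1) := by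
      funext k
      fin_cases k <;> rfl
    rw [e0] at hM
    exact odds_mv hSt hd hon hM

/-- a target outside a finite set -/
theorem line_target (σ : K →+* ℝ) (τ : ∀ v, K →+* ℚ_[p v]) (hd : ∀ j, g.degreeOf j ≤ 4)
    {z : Fin n → K} {w : K} {i : Fin n} (hw : w ≠ 0) (hon : w ^ 2 = eval z g)
    (hio : ∀ w' : K, w' ≠ 0 → w' ^ 2 = eval z g → IOt (th g (Pi.single i 1) z w'))
    {x δ : ℝ} (hz : |σ (z i) - x| < δ)
    (hpos : ∀ t : ℝ, |t - x| < δ → 0 < eval (Function.update (fun k => σ (z k)) i t) (map σ g))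
    {y : ℝ} (hy : |y - x| < δ) {F : Set K} (hF : F.Finite) {ε : ℝ} (hε : 0 < ε) {ε' : ℝ}
    (hε' : 0 < ε') :
    ∃ r Z : K, |σ r - y| < ε ∧ r ∉ F ∧ 0 < σ Z * σ w ∧ Z ^ 2 = eval (Function.update z i r) g ∧
      Nr τ ε' z w (Function.update z i r) Z ∧ (Function.update z i r, Z) ∈ Odds g (z, w) := by
  classical
  -- a target outside the image of the finite set
  obtain ⟨y', hy1, hy2, hy3⟩ : ∃ y', |y' - y| < ε / 2 ∧ |y' - x| < δ ∧ y' ∉ σ '' F := by
    by_contra hcon
    push Not at hcon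
    have h1 : ({y' : ℝ | |y' - y| < ε / 2} ∩ {y' : ℝ | |y' - x| < δ}) ∈ nhds y := by
      refine Filter.inter_mem ?_ ?_
      · refine (isOpen_lt (by fun_prop) continuous_const).mem_nhds ?_
        simpa using half_pos hε
      · exact (isOpen_lt (by fun_prop) continuous_const).mem_nhds hy
    exact infinite_of_mem_nhds y h1 ((hF.image σ).subset fun a ha => hcon a ha.1 ha.2)
  obtain ⟨η, hη, hη1⟩ := Metric.isOpen_iff.1 (hF.image σ).isClosed.isOpen_compl y' hy3
  obtain ⟨r, Z, h1, h2, h3, h4, hO⟩ := line_move σ τ hd hw hon hio (t := y' - σ (z i)) (fun s h0 h1 => by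
    apply hpos
    have e1 : σ (z i) + s * (y' - σ (z i)) - x = (1 - s) * (σ (z i) - x) + s * (y' - x) := by ring
    rw [e1]
    refine (abs_add_le _ _).trans_lt ?_
    rw [abs_mul, abs_mul, abs_of_nonneg h0, abs_of_nonneg (by linarith : 0 ≤ 1 - s)]
    rcases lt_or_eq_of_le h0 with h2 | h2
    · nlinarith
    · rw [← h2]
      simpa using hz) (lt_min (lt_min (half_pos hε) hη) hε')
  have e1 : Function.update z i (z i + r) = mv z i r := by
    rw [← mv_update]
    congr 1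
    ring
  refine ⟨z i + r, Z, ?_, ?_, h2, ?_, ?_, by rw [e1]; exact hO⟩
  · rw [map_add]
    have h4 := h1.trans_le ((min_le_left _ _).trans (min_le_left _ _))
    have h5 := abs_add_le (σ r - (y' - σ (z i))) (y' - y)
    have h6 : σ r - (y' - σ (z i)) + (y' - y) = σ (z i) + σ r - y := by ring
    rw [h6] at h5
    linarith
  · intro h4
    have h5 : σ (z i + r) ∈ Metric.ball y' η := by
      rw [Metric.mem_ball, Real.dist_eq, map_add]
      have h6 : σ (z i) + σ r - y' = σ r - (y' - σ (z i)) := by ring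
      rw [h6]
      exact h1.trans_le ((min_le_left _ _).trans (min_le_right _ _))
    exact hη1 h5 ⟨_, h4, rfl⟩
  · rw [e1]
    exact h3
  · rw [e1]
    exact h4.mono (min_le_right _ _)

end real

end Pool.Agent.U199.ZT
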