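import Pool.Agent.U199.ZS.KT
import Pool.Agent.U199.ZR.L

/-!
# Points of `w² = quartic` with given real position, close to `(0, w)` at finitely many `p`-adic places
-/

set_option autoImplicit false
set_option linter.unusedSectionVars false
set_option linter.unusedVariables false

open WeierstrassCurve Filter Topology Pool.Agent.Y720.MZ Pool.Agent.Y718.X

namespace Pool.Agent.U199.ZT

open Pool.Agent.Q35.ZC (MulPt)
open Pool.Agent.U199.ZS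

variable {K : Type} [Field K] [DecidableEq K]

/-- a limit point of the multiples gives a point close to `(0, w)` at the `p`-adic places -/
theorem mix (σ : K →+* ℝ) {ι : Type} [Finite ι] {p : ι → ℕ} [∀ i, Fact (p i).Prime]
    (τ : ∀ i, K →+* ℚ_[p i]) {w q₁ q₂ q₃ q₄ : K} (hw0 : w ≠ 0)
    (hD : dsc q₂ (rb w q₁ q₃ q₄) (rc w q₁ q₂ q₃ q₄) ≠ 0)
    (hS : ∀ h, ∀ n : ℕ, n ≠ 0 → n • (.some (xs w q₁ q₂) (ys w q₁ q₂ q₃) h :
      Pt q₂ (rb w q₁ q₃ q₄) (rc w q₁ q₂ q₃ q₄)) ≠ 0) {ξ η : ℝ}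
    (hξ : ∀ x, ξ < x → 0 < gg (σ q₂) (σ (rb w q₁ q₃ q₄)) (σ (rc w q₁ q₂ q₃ q₄)) x)
    (hη : η ^ 2 = gg (σ q₂) (σ (rb w q₁ q₃ q₄)) (σ (rc w q₁ q₂ q₃ q₄)) ξ)
    (hd : Df (σ w) (σ q₁) (σ q₃) ξ η ≠ 0) {B : Set K} (hB : B.Finite) (hBξ : ξ ∉ σ '' B)
    {ε : ℝ} (hε : 0 < ε) :
    ∃ x y : K, y ^ 2 = x ^ 3 + q₂ * x ^ 2 + rb w q₁ q₃ q₄ * x + rc w q₁ q₂ q₃ q₄ ∧ x ∉ B ∧
      Df w q₁ q₃ x y ≠ 0 ∧
      |σ (tf w q₁ q₂ q₃ x y) - tf (σ w) (σ q₁) (σ q₂) (σ q₃) ξ η| < ε ∧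
      |σ (Yf w q₁ q₂ q₃ x y) - Yf (σ w) (σ q₁) (σ q₂) (σ q₃) ξ η| < ε ∧
      Cl τ ε (tf w q₁ q₂ q₃ x y) (Yf w q₁ q₂ q₃ x y) w ∧
      MulPt (w, ![q₁, q₂, q₃, q₄]) (tf w q₁ q₂ q₃ x y) (Yf w q₁ q₂ q₃ x y) := by
  have hch : CharZero K := σ.charZero
  have hns := ns_of_dsc hD (s_eqn (q₁ := q₁) (q₂ := q₂) (q₃ := q₃) (q₄ := q₄) hw0)
  set D : Pt q₂ (rb w q₁ q₃ q₄) (rc w q₁ q₂ q₃ q₄) := .some (xs w q₁ q₂) (ys w q₁ q₂ q₃) hns
    with hDdef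
  have hMD : ∀ n : ℕ, n ≠ 0 → n • D ≠ 0 := fun n hn => hS hns n hn
  choose R hR using fun i => near_inf (τ i) (q₁ := q₁) (q₂ := q₂) (q₃ := q₃) (q₄ := q₄) hw0 hε
  obtain ⟨N, hN, hNp⟩ := pad_all τ hD hMD R
  have hnear : Near σ (N • D) ξ η := near_all hD (fun n hn => by
    rw [← mul_smul]; exact hMD _ (mul_ne_zero hn hN)) hξ hη
  obtain ⟨n, x, y, h, hn, hx, hy⟩ := near_seq hnear
  have hw' : σ w ≠ 0 := (map_ne_zero σ).2 hw0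
  have lden : Tendsto (fun k => σ (Df w q₁ q₃ (x k) (y k))) atTop
      (𝓝 (Df (σ w) (σ q₁) (σ q₃) ξ η)) := by
    have : Tendsto (fun k => 2 * σ w * σ (y k) - σ q₁ * σ (x k) - 2 * σ w ^ 2 * σ q₃) atTop
        (𝓝 (2 * σ w * η - σ q₁ * ξ - 2 * σ w ^ 2 * σ q₃)) :=
      ((hy.const_mul _).sub (hx.const_mul _)).sub_const _
    refine this.congr fun k => ?_
    simp [Df, map_ofNat]
  have lnum : Tendsto (fun k => σ (Nf w q₁ q₂ (x k))) atTop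
      (𝓝 (Nf (σ w) (σ q₁) (σ q₂) ξ)) := by
    have : Tendsto (fun k => 4 * σ w ^ 2 * (σ (x k) + σ q₂) - σ q₁ ^ 2) atTop
        (𝓝 (4 * σ w ^ 2 * (ξ + σ q₂) - σ q₁ ^ 2)) :=
      ((hx.add_const _).const_mul _).sub_const _
    refine this.congr fun k => ?_
    simp [Nf, map_ofNat]
  have lt' : Tendsto (fun k => σ (tf w q₁ q₂ q₃ (x k) (y k))) atTop
      (𝓝 (tf (σ w) (σ q₁) (σ q₂) (σ q₃) ξ η)) := by
    have := lnum.div lden hd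
    refine this.congr fun k => ?_
    simp only [tf, map_div₀, Pi.div_apply]
  have lY : Tendsto (fun k => σ (Yf w q₁ q₂ q₃ (x k) (y k))) atTop
      (𝓝 (Yf (σ w) (σ q₁) (σ q₂) (σ q₃) ξ η)) := by
    have h1 := ((lt'.mul ((lt'.mul hx).sub_const (σ q₁))).div_const (2 * σ w)).const_add (-σ w)
    refine h1.congr fun k => ?_
    simp [Yf, map_ofNat]
  have hBc : IsClosed (σ '' B) := (hB.image σ).isClosed
  have e0 : ∀ᶠ k in atTop, σ (x k) ∉ σ '' B := hx.eventually (hBc.isOpen_compl.mem_nhds hBξ)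
  have e1 := (Metric.tendsto_nhds.1 lt') ε hε
  have e2 := (Metric.tendsto_nhds.1 lY) ε hε
  have e3 := lden.eventually_ne hd
  obtain ⟨k, k0, k1, k2, k3⟩ := (e0.and (e1.and (e2.and e3))).exists
  have k4 : Df w q₁ q₃ (x k) (y k) ≠ 0 := fun h0 => k3 (by rw [h0, map_zero])
  refine ⟨x k, y k, (cv_ns.1 (h k)).1, fun hk => k0 ⟨_, hk, rfl⟩, k4, ?_, ?_, ?_, ?_⟩
  · rw [← Real.dist_eq]; exact k1
  · rw [← Real.dist_eq]; exact k2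
  · intro i
    exact hR i (x k) (y k) (cv_ns.1 (h k)).1 (hNp (n k) (x k) (y k) (h k) (hn k) i)
  · unfold MulPt
    have hdec : Classical.decEq K = ‹DecidableEq K› := Subsingleton.elim _ _
    rw [hdec]
    have hn' : (n k * (N : ℤ)) • D = .some (x k) (y k) (h k) := by
      rw [mul_smul, natCast_zsmul]
      exact hn k
    exact ⟨hw0, hns, hMD, n k * (N : ℤ), x k, y k, h k, hn', k4, rfl, rfl⟩

end Pool.Agent.U199.ZT
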