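import Pool.Agent.U199.ZT.K
import Pool.Agent.Results.MP_9207e0_ag.EquivalentPointsDense

/-!
# Kummer surfaces `w² = e f(x) g(y)` with classes of zero-cycles: the theorems
-/

set_option autoImplicit false
set_option linter.unusedSectionVars false
set_option linter.unusedVariables false

open MvPolynomial Pool.Agent.Y720.MZ Filter Topology

namespace Pool.Agent.U199.ZT

open Pool.Agent.Q35.ZC
open Pool.Agent.Q35.TT (SmoothN TorN Tor TorT lc af bq tay)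
open Pool.Agent.U199.ZR (h2 gi odds_self)
open Pool.Agent.U199.ZS (near_out im Nr)
open Pool.Agent.U199.ZS.Kum (Dc E G deg_G io_G fin_E St Sm OutK lc_G eval_G dc_smul tort_smul)

section

variable {K : Type} [Field K] [NumberField K] {ι : Type} [Finite ι] {p : ι → ℕ}
  [hp : ∀ i, Fact (p i).Prime]

/-- the points of `R` off the branch curve outside the exceptional coordinates -/
def Ou (F : Fin 2 → Set K) (R : Set ((Fin 2 → K) × K)) : Set ((Fin 2 → K) × K) :=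
  {P | P ∈ R ∧ P.2 ≠ 0 ∧ ∀ i, P.1 i ∉ F i}

/-- **Connected sets.** -/
theorem compT (τ : K →+* ℝ) (σ : ∀ v, K →+* ℚ_[p v]) {v : Fin 2 → Fin 5 → K}
    (hv : ∀ i, Dc (v i)) {F : Fin 2 → Set K} (hF : ∀ i, (F i).Finite) (hEF : ∀ i, E (v i) ⊆ F i)
    {e : K} (he : e ≠ 0) {R : Set ((Fin 2 → K) × K)} (hR : OC (C e * G v) R)
    {x : (Fin 2 → ℝ) × ℝ} {y : ∀ v, (Fin 2 → ℚ_[p v]) × ℚ_[p v]}
    (hxy : (x, y) ∈ closure (im τ σ (Ou F R)))
    {M : Set ((Fin 2 → ℝ) × ℝ)} (hM : IsPreconnected M)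
    (hMon : ∀ T ∈ M, OnCover (map τ (C e * G v)) T) (hMsm : ∀ T ∈ M, Sm (map τ (C e * G v)) T)
    (hx : x ∈ M) : ∀ x' ∈ M, (x', y) ∈ closure (im τ σ (Ou F R)) :=
  prod_comp τ σ (fun η hη => hbK τ σ hv hF hEF he hη) (fun η hη => hfK τ σ hv hF hEF he hη)
    hR hxy hM hMon hMsm hx

/-- near real points outside the exceptional coordinates -/
theorem near_clR (σ : K →+* ℝ) (τ : ∀ v, K →+* ℚ_[p v]) {R : Set ((Fin 2 → K) × K)}
    {F : Fin 2 → Set K} (hF : ∀ j, (F j).Finite)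
    {x : (Fin 2 → ℝ) × ℝ} (hx : x.2 ≠ 0)
    (hxF : ∀ j, ∀ c ∈ F j, x.1 j ≠ σ c) {y : ∀ v, (Fin 2 → ℚ_[p v]) × ℚ_[p v]}
    (hxy : (x, y) ∈ closure (im σ τ R)) :
    (x, y) ∈ closure (im σ τ (Ou F R)) := by
  obtain ⟨N, hN, hxN, hN'⟩ := near_out σ (T := ∅) Set.finite_empty hF hx (by simp) hxF
  rw [mem_closure_iff] at hxy ⊢
  intro U hU hxU
  obtain ⟨_, ⟨hb1, hb2⟩, ⟨P, hP, rfl⟩⟩ := hxy (U ∩ (fun S => S.1) ⁻¹' N)
    (hU.inter (hN.preimage continuous_fst)) ⟨hxU, hxN⟩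
  obtain ⟨c1, c2, c3⟩ := hN' P hb2
  exact ⟨_, hb1, P, ⟨hP, c1, c3⟩, rfl⟩

/-- **Openness.** -/
theorem opnT [Nonempty ι] (hinj : Function.Injective p) (σ : ∀ v, K →+* ℚ_[p v])
    {v : Fin 2 → Fin 5 → K} (hv : ∀ i, Dc (v i)) {e : K} (he : e ≠ 0) {z : Fin 2 → K} {w : K}
    (hw : w ≠ 0) (hon : w ^ 2 = eval z (C e * G v)) (hz : ∀ i, z i ∉ E (v i)) :
    Dense (C e * G v) (Odds (C e * G v) (z, w)) (z, w) σ ∧
      ∀ τ : K →+* ℝ, DenseReal (C e * G v) (Odds (C e * G v) (z, w)) (z, w) σ τ := by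
  have hg : ∀ j, (C e * G v).degreeOf j ≤ 4 := fun j =>
    (degreeOf_C_mul_le _ j e).trans (deg_G v j)
  have hother : ∀ i : Fin 2, ∃ j, i ≠ j := by
    intro i
    fin_cases i
    · exact ⟨1, by decide⟩
    · exact ⟨0, by decide⟩
  have hG' : ∀ i, GenusOne (line (C e * G v) z i) := by
    intro i
    obtain ⟨j, hij⟩ := hother i
    rw [line_twist]
    refine genus_twist he (Pool.Agent.U199.ZS.Kum.genusK hij (hv i) ?_)
    intro h0
    rw [map_mul, eval_G v z hij, h0, mul_zero, mul_zero] at hon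
    exact hw (pow_eq_zero_iff two_ne_zero |>.1 hon)
  have hI : ∀ i, ∀ N : ℕ, N ≠ 0 → ¬ Tor (lc (C e * G v) (af z) i) (z i) w N := by
    intro i N hN h5
    obtain ⟨j, hij⟩ := hother i
    rw [Pool.Agent.Q190.TT.lc_smul (G v) e he, h2 K _ e _ _ _ he] at h5
    have h6 := h5.2.2
    rw [lc_G v z hij] at h6
    exact hz i ⟨N, hN, tort_smul h6⟩
  exact near hSt hg (P := (z, w)) hon hw
    (fun j => ⟨j, moves_of hg hw hon (hG' j) (hI j), Or.inl rfl⟩) hinj σ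

/-- the set of the points with the given class is closed under odd multiples -/
theorem oc_odds {g : MvPolynomial (Fin 2) K} (P : (Fin 2 → K) × K) : OC g (Odds g P) :=
  fun Q hQ => ⟨hQ.1, fun Q' hQ' => Pool.Agent.U199.ZR.odds_trans hQ hQ'⟩

/-- **The product of the component and a neighbourhood.** -/
theorem nearT [Nonempty ι] (hinj : Function.Injective p) (τ : K →+* ℝ) (σ : ∀ v, K →+* ℚ_[p v])
    {v : Fin 2 → Fin 5 → K} (hv : ∀ i, Dc (v i)) {e : K} (he : e ≠ 0) {P : (Fin 2 → K) × K}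
    (hP : P ∈ OutK (C e * G v) fun i => E (v i)) :
    ∃ U ∈ 𝓝 (fun v => image (σ v) P), ∀ M : Set ((Fin 2 → ℝ) × ℝ), IsPreconnected M →
      (∀ T ∈ M, OnCover (map τ (C e * G v)) T) → (∀ T ∈ M, Sm (map τ (C e * G v)) T) →
      image τ P ∈ M → ∀ x ∈ M, ∀ y ∈ U, (∀ u, OnCover (map (σ u) (C e * G v)) (y u)) →
        (x, y) ∈ closure (im τ σ (Odds (C e * G v) P)) := by
  obtain ⟨V, hV, hV'⟩ := (opnT hinj σ hv he hP.2.1 hP.1 hP.2.2).2 τ
  refine ⟨{y | (image τ P, y) ∈ V}, ?_, ?_⟩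
  · have hc : Continuous fun y : ∀ v, (Fin 2 → ℚ_[p v]) × ℚ_[p v] => (image τ P, y) :=
      continuous_const.prodMk continuous_id
    exact hc.continuousAt.preimage_mem_nhds hV
  · intro M hM hMon hMsm hPM x hx y hy hyon
    have h5 := compT τ σ hv (fun i => fin_E (hv i)) (fun i => le_rfl) he (oc_odds P)
      (x := image τ P) (y := y) ?_ hM hMon hMsm hPM x hx
    · refine closure_mono ?_ h5
      rintro _ ⟨Q, hQ, rfl⟩
      exact ⟨Q, hQ.1, rfl⟩
    refine near_clR τ σ (fun i => fin_E (hv i)) ((map_ne_zero τ).2 hP.2.1) ?_ ?_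
    · intro j c hc h
      apply hP.2.2 j
      have : P.1 j = c := τ.injective h
      rw [this]
      exact hc
    · refine closure_mono ?_ (hV' (image τ P, y) hy (hMon _ hPM) hyon)
      rintro _ ⟨Q, hQ, rfl⟩
      exact ⟨Q, hQ, rfl⟩

end

end Pool.Agent.U199.ZT
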